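import Pool.Agent.Q215.GrB

/-!
# Abstractly Borelian groups: measurability of the multiplication graph

`G` carries a `σ`-algebra which contains all subsets of the complement of `D`.
-/

set_option autoImplicit false

namespace Q163.AB

open Set Cardinal MeasureTheory Q215.Gr

universe u

section meas

variable {G : Type u} [MeasurableSpace G] {D : Set G}

theorem meas_D (hD : ∀ S : Set G, (∀ x ∈ S, x ∉ D) → MeasurableSet S) : MeasurableSet D := by
  rw [← compl_compl D]
  exact (hD Dᶜ fun x hx => hx).compl

/-- Functions which are constant on `D` are measurable. -/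
theorem meas_const (hD : ∀ S : Set G, (∀ x ∈ S, x ∉ D) → MeasurableSet S) {f : G → G} {c : G}
    (hf : ∀ x ∈ D, f x = c) : Measurable f := by
  intro s hs
  have h1 : f ⁻¹' s = (f ⁻¹' s ∩ Dᶜ) ∪ (D ∩ {_x | c ∈ s}) := by
    ext x
    by_cases hx : x ∈ D
    · simp [hx, hf x hx]
    · simp [hx]
  rw [h1]
  exact (hD _ fun x hx => hx.2).union ((meas_D hD).inter (MeasurableSet.const _))

/-- Functions which are the identity on `D` are measurable. -/
theorem meas_id (hD : ∀ S : Set G, (∀ x ∈ S, x ∉ D) → MeasurableSet S) {f : G → G}
    (hf : ∀ x ∈ D, f x = x) : Measurable f := by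
  intro s hs
  have h1 : f ⁻¹' s = (f ⁻¹' s ∩ Dᶜ) ∪ (D ∩ s) := by
    ext x
    by_cases hx : x ∈ D
    · simp [hx, hf x hx]
    · simp [hx]
  rw [h1]
  exact (hD _ fun x hx => hx.2).union ((meas_D hD).inter hs)

theorem meas_eq {Y : Type*} [MeasurableSpace Y] {e : G → ℕ → Bool} (he : Function.Injective e)
    (hem : Measurable e) {f g : Y → G} (hf : Measurable f) (hg : Measurable g) :
    MeasurableSet {y | f y = g y} := by
  have h1 : {y | f y = g y} = ⋂ n, {y | e (f y) n = e (g y) n} := by
    ext y
    rw [mem_iInter]
    constructor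
    · intro h n
      have h' : f y = g y := h
      show e (f y) n = e (g y) n
      rw [h']
    · intro h
      exact he (funext h)
  rw [h1]
  refine MeasurableSet.iInter fun n => ?_
  have h2 : Measurable fun y => e (f y) n := (measurable_pi_apply n).comp (hem.comp hf)
  have h3 : Measurable fun y => e (g y) n := (measurable_pi_apply n).comp (hem.comp hg)
  exact measurableSet_eq_fun h2 h3

variable [Inhabited G]

open Classical in
/-- The function which is the default element on `D` and `f` elsewhere. -/
noncomputable def off (D : Set G) (f : G → G) (x : G) : G := if x ∈ D then default else f x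

omit [MeasurableSpace G] in
theorem off_of {f : G → G} {x : G} (hx : x ∉ D) : off D f x = f x := if_neg hx

theorem meas_off (hD : ∀ S : Set G, (∀ x ∈ S, x ∉ D) → MeasurableSet S) (f : G → G) :
    Measurable (off D f) :=
  meas_const hD (c := default) fun _ hx => if_pos hx

/-- Sets of points two coordinates of which are functions of the third, which is not in `D`. -/
theorem meas_K (hD : ∀ S : Set G, (∀ x ∈ S, x ∉ D) → MeasurableSet S) {Y : Type*}
    [MeasurableSpace Y] {e : G → ℕ → Bool} (he : Function.Injective e) (hem : Measurable e)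
    {a b c : Y → G} (ha : Measurable a) (hb : Measurable b) (hc : Measurable c) (f g : G → G) :
    MeasurableSet {p | a p ∉ D ∧ b p = f (a p) ∧ c p = g (a p)} := by
  have h1 : {p | a p ∉ D ∧ b p = f (a p) ∧ c p = g (a p)} =
      a ⁻¹' Dᶜ ∩ ({p | b p = off D f (a p)} ∩ {p | c p = off D g (a p)}) := by
    ext p
    constructor
    · rintro ⟨h1, h2, h3⟩
      exact ⟨h1, by show b p = _; rw [off_of h1]; exact h2, by show c p = _; rw [off_of h1]; exact h3⟩
    · rintro ⟨h1, h2, h3⟩
      have h2' : b p = off D f (a p) := h2
      have h3' : c p = off D g (a p) := h3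
      rw [off_of h1] at h2' h3'
      exact ⟨h1, h2', h3'⟩
  rw [h1]
  exact (ha (meas_D hD).compl).inter ((meas_eq he hem hb ((meas_off hD f).comp ha)).inter
    (meas_eq he hem hc ((meas_off hD g).comp ha)))

end meas

end Q163.AB
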