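import Pool.Agent.Q163.AB.A

/-!
# Abstractly Borelian groups: the recursion

`C` is a well-ordered chain of subgroups with union `G`, and the rank is injective on `D`.
-/

set_option autoImplicit false

namespace Q163.AB

open Set Cardinal MeasureTheory Q215.Gr

universe u

variable {G : Type u} [Group G] {ι : Type u} [LinearOrder ι] [WellFoundedLT ι] [Nonempty ι]

section defs

variable (C : ι → Subgroup G) (D : Set G)

open Classical in
/-- The element of `D` with the same rank. -/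
noncomputable def dl (x : G) : G := if h : ∃ d ∈ D, rk C d = rk C x then h.choose else 1

/-- The triples which are determined by one element outside `D`. -/
def K : Set (G × G × G) :=
  {p | p.2.1 ∉ D ∧ p.1 = dl C D p.2.1 ∧ p.2.2 = dl C D p.2.1 * p.2.1} ∪
  ({p | p.1 ∉ D ∧ p.2.1 = dl C D p.1 ∧ p.2.2 = p.1 * dl C D p.1} ∪
  ({p | p.2.2 ∉ D ∧ p.2.1 = dl C D p.2.2 ∧ p.1 = p.2.2 * (dl C D p.2.2)⁻¹} ∪
  ({p | p.2.2 ∉ D ∧ p.1 = dl C D p.2.2 ∧ p.2.1 = (dl C D p.2.2)⁻¹ * p.2.2} ∪
  ({p | p.1 ∉ D ∧ p.2.2 = dl C D p.1 ∧ p.2.1 = p.1⁻¹ * dl C D p.1} ∪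
  ({p | p.2.1 ∉ D ∧ p.2.2 = dl C D p.2.1 ∧ p.1 = dl C D p.2.1 * p.2.1⁻¹} ∪
  ({p | p.1 = 1 ∧ p.2.1 = p.2.2} ∪
  ({p | p.2.1 = 1 ∧ p.1 = p.2.2} ∪
  {p | p.2.1 = p.1 ∧ (p.1 ∈ D ∧ p.2.2 = p.1 * p.1)})))))))

/-- The triples whose product relation is verified in at most `n` steps. -/
noncomputable def TT : ℕ → Set (G × G × G)
  | 0 => {p | p.1 ∉ D ∧ p.2.1 ∉ D ∧ p.2.2 ∉ D ∧ p.1 * p.2.1 = p.2.2} ∪ K C D
  | n + 1 => TT n ∪
      ({p | (p.1 ∉ D ∧ p.2.2 ∉ D) ∧ repL C p.1 = repL C p.2.2 ∧ (uL C p.1, p.2.1, uL C p.2.2) ∈ TT n} ∪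
      ({p | (p.2.1 ∉ D ∧ p.2.2 ∉ D) ∧ repR C p.2.1 = repR C p.2.2 ∧
        (p.1, uR C p.2.1, uR C p.2.2) ∈ TT n} ∪
      {p | (p.1 ∉ D ∧ p.2.1 ∉ D) ∧ repR C p.1 = repR C p.2.1⁻¹ ∧ (uR C p.1, vR C p.2.1, p.2.2) ∈ TT n}))

end defs

variable {C : ι → Subgroup G} {D : Set G}

theorem dl_eq (hinj : ∀ d ∈ D, ∀ d' ∈ D, rk C d = rk C d' → d = d') {x d : G} (hd : d ∈ D)
    (h : rk C d = rk C x) : dl C D x = d := by
  have h' : ∃ d ∈ D, rk C d = rk C x := ⟨d, hd, h⟩
  rw [dl, dif_pos h']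
  exact hinj _ h'.choose_spec.1 _ hd (h'.choose_spec.2.trans h.symm)

theorem K_sound : ∀ p ∈ K C D, p.1 * p.2.1 = p.2.2 := by
  rintro ⟨x, y, z⟩ (⟨-, h1, h2⟩ | ⟨-, h1, h2⟩ | ⟨-, h1, h2⟩ | ⟨-, h1, h2⟩ | ⟨-, h1, h2⟩ |
    ⟨-, h1, h2⟩ | ⟨h1, h2⟩ | ⟨h1, h2⟩ | ⟨h1, -, h2⟩) <;> simp only at h1 h2 ⊢ <;> rw [h1, h2] <;> group

theorem TT_sound (n : ℕ) : ∀ p ∈ TT C D n, p.1 * p.2.1 = p.2.2 := by
  induction n with
  | zero =>
    rintro p (hp | hp)
    · exact hp.2.2.2
    · exact K_sound p hp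
  | succ n ih =>
    rintro ⟨x, y, z⟩ (h | ⟨-, h2, h3⟩ | ⟨-, h2, h3⟩ | ⟨-, h2, h3⟩)
    · exact ih _ h
    · have h4 := ih _ h3
      simp only [uL] at h4 h2
      rw [h2, mul_assoc] at h4
      exact mul_left_cancel h4
    · have h4 := ih _ h3
      simp only [uR] at h4 h2
      rw [h2, ← mul_assoc] at h4
      exact mul_right_cancel h4
    · have h4 := ih _ h3
      simp only [uR, vR] at h4 h2
      rw [h2] at h4
      rw [← h4]
      group

/-- Every product relation is verified after finitely many steps. -/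
theorem TT_complete (hC : Monotone C) (hall : ∀ x, ∃ i, x ∈ C i)
    (hinj : ∀ d ∈ D, ∀ d' ∈ D, rk C d = rk C d' → d = d') (a : ι) : ∀ x y z : G, x * y = z →
    rk C x ≤ a → rk C y ≤ a → rk C z ≤ a → ∃ n, (x, y, z) ∈ TT C D n := by
  induction a using WellFoundedLT.induction with
  | _ a ih =>
    rintro x y z hxyz hx hy hz
    have hdx := hall x
    have hdy := hall y
    have hdz := hall z
    have hK : (x, y, z) ∈ K C D → ∃ n, (x, y, z) ∈ TT C D n := fun h => ⟨0, Or.inr h⟩
    -- a smaller bound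
    by_cases hall' : rk C x < a ∧ rk C y < a ∧ rk C z < a
    · exact ih (max (rk C x) (max (rk C y) (rk C z)))
        (max_lt hall'.1 (max_lt hall'.2.1 hall'.2.2)) x y z hxyz (le_max_left _ _)
        ((le_max_left _ _).trans (le_max_right _ _)) ((le_max_right _ _).trans (le_max_right _ _))
    -- all outside
    by_cases hout : x ∉ D ∧ y ∉ D ∧ z ∉ D
    · exact ⟨0, Or.inl ⟨hout.1, hout.2.1, hout.2.2, hxyz⟩⟩
    -- ranks
    have hyz : rk C x < a → rk C y = a ∧ rk C z = a := by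
      intro hx'
      have hy' : rk C y = a := by
        refine hy.lt_or_eq.resolve_left fun hy' => hall' ⟨hx', hy', ?_⟩
        rw [← hxyz]
        exact rk_mul_lt hC hdx hdy hx' hy'
      refine ⟨hy', hz.lt_or_eq.resolve_left fun hz' => hall' ⟨hx', ?_, hz'⟩⟩
      have h1 : y = x⁻¹ * z := by rw [← hxyz]; group
      rw [h1]
      refine rk_mul_lt hC (ex_inv hdx) hdz ?_ hz'
      rwa [rk_inv]
    have hxz : rk C y < a → rk C x = a ∧ rk C z = a := by
      intro hy'
      have hx' : rk C x = a := hx.lt_or_eq.resolve_left fun h => hy'.ne (hyz h).1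
      refine ⟨hx', hz.lt_or_eq.resolve_left fun hz' => ?_⟩
      have h1 : x = z * y⁻¹ := by rw [← hxyz]; group
      have h2 : rk C x < a := by
        rw [h1]
        refine rk_mul_lt hC hdz (ex_inv hdy) hz' ?_
        rwa [rk_inv]
      exact h2.ne hx'
    have hxy : rk C z < a → rk C x = a ∧ rk C y = a := fun hz' =>
      ⟨hx.lt_or_eq.resolve_left fun h => hz'.ne (hyz h).2,
        hy.lt_or_eq.resolve_left fun h => hz'.ne (hxz h).2⟩
    -- an element of maximal rank in `D`
    by_cases hA : x ∈ D ∧ rk C x = a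
    · obtain ⟨hA1, hA2⟩ := hA
      apply hK
      rcases hy.lt_or_eq with hy' | hy'
      · have hz' := (hxz hy').2
        by_cases hzD : z ∈ D
        · have h1 : x = z := hinj x hA1 z hzD (hA2.trans hz'.symm)
          have h2 : y = 1 := by
            rw [← h1] at hxyz
            exact mul_eq_left.1 hxyz
          exact Or.inr (Or.inr (Or.inr (Or.inr (Or.inr (Or.inr (Or.inr (Or.inl ⟨h2, h1⟩)))))))
        · have h1 : dl C D z = x := dl_eq hinj hA1 (hA2.trans hz'.symm)
          refine Or.inr (Or.inr (Or.inr (Or.inl ⟨hzD, h1.symm, ?_⟩)))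
          show y = (dl C D z)⁻¹ * z
          rw [h1, ← hxyz]
          group
      · by_cases hyD : y ∈ D
        · have h1 : y = x := hinj y hyD x hA1 (hy'.trans hA2.symm)
          refine Or.inr (Or.inr (Or.inr (Or.inr (Or.inr (Or.inr (Or.inr (Or.inr ⟨h1, hA1, ?_⟩)))))))
          show z = x * x
          rw [← hxyz, h1]
        · have h1 : dl C D y = x := dl_eq hinj hA1 (hA2.trans hy'.symm)
          refine Or.inl ⟨hyD, h1.symm, ?_⟩
          show z = dl C D y * y
          rw [h1, hxyz]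
    by_cases hB : y ∈ D ∧ rk C y = a
    · obtain ⟨hB1, hB2⟩ := hB
      apply hK
      rcases hx.lt_or_eq with hx' | hx'
      · have hz' := (hyz hx').2
        by_cases hzD : z ∈ D
        · have h1 : y = z := hinj y hB1 z hzD (hB2.trans hz'.symm)
          have h2 : x = 1 := by
            rw [← h1] at hxyz
            exact mul_eq_right.1 hxyz
          exact Or.inr (Or.inr (Or.inr (Or.inr (Or.inr (Or.inr (Or.inl ⟨h2, h1⟩))))))
        · have h1 : dl C D z = y := dl_eq hinj hB1 (hB2.trans hz'.symm)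
          refine Or.inr (Or.inr (Or.inl ⟨hzD, h1.symm, ?_⟩))
          show x = z * (dl C D z)⁻¹
          rw [h1, ← hxyz]
          group
      · have hxD : x ∉ D := fun h => hA ⟨h, hx'⟩
        have h1 : dl C D x = y := dl_eq hinj hB1 (hB2.trans hx'.symm)
        refine Or.inr (Or.inl ⟨hxD, h1.symm, ?_⟩)
        show z = x * dl C D x
        rw [h1, hxyz]
    by_cases hCz : z ∈ D ∧ rk C z = a
    · obtain ⟨hC1, hC2⟩ := hCz
      apply hK
      rcases hx.lt_or_eq with hx' | hx'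
      · have hy' := (hyz hx').1
        have hyD : y ∉ D := fun h => hB ⟨h, hy'⟩
        have h1 : dl C D y = z := dl_eq hinj hC1 (hC2.trans hy'.symm)
        refine Or.inr (Or.inr (Or.inr (Or.inr (Or.inr (Or.inl ⟨hyD, h1.symm, ?_⟩)))))
        show x = dl C D y * y⁻¹
        rw [h1, ← hxyz]
        group
      · have hxD : x ∉ D := fun h => hA ⟨h, hx'⟩
        have h1 : dl C D x = z := dl_eq hinj hC1 (hC2.trans hx'.symm)
        refine Or.inr (Or.inr (Or.inr (Or.inr (Or.inl ⟨hxD, h1.symm, ?_⟩))))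
        show y = x⁻¹ * dl C D x
        rw [h1, ← hxyz]
        group
    rcases hx.lt_or_eq with hx' | hx'
    · -- `x` has small rank, so `y` and `z` have rank `a`
      obtain ⟨hy', hz'⟩ := hyz hx'
      have hyD : y ∉ D := fun h => hB ⟨h, hy'⟩
      have hzD : z ∉ D := fun h => hCz ⟨h, hz'⟩
      have h1 : z * y⁻¹ = x := by rw [← hxyz]; group
      have h2 : SR C y = SR C z := SR_eq hC hdy hdz (hy'.trans hz'.symm) (by rw [h1, hy']; exact hx')
      have h3 : (SR C y).Nonempty := ⟨z, hdz, hz'.trans hy'.symm, by rw [h1, hy']; exact hx'⟩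
      have h4 := repR_mem h3
      have h5 := repR_congr h2
      have h6 := repR_mem (h2 ▸ h3)
      have h7 : rk C (uR C y) < a := by
        rw [uR, ← rk_inv, mul_inv_rev, inv_inv, ← hy']
        exact h4.2.2
      have h8 : rk C (uR C z) < a := by
        rw [uR, ← rk_inv, mul_inv_rev, inv_inv, ← hz']
        exact h6.2.2
      obtain ⟨n, hn⟩ := ih (max (rk C x) (max (rk C (uR C y)) (rk C (uR C z))))
        (max_lt hx' (max_lt h7 h8)) x (uR C y) (uR C z) (by
          simp only [uR]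
          rw [h5, ← mul_assoc, hxyz]) (le_max_left _ _)
        ((le_max_left _ _).trans (le_max_right _ _)) ((le_max_right _ _).trans (le_max_right _ _))
      exact ⟨n + 1, Or.inr (Or.inr (Or.inl ⟨⟨hyD, hzD⟩, h5, hn⟩))⟩
    rcases hy.lt_or_eq with hy' | hy'
    · -- `y` has small rank
      have hz' := (hxz hy').2
      have hxD : x ∉ D := fun h => hA ⟨h, hx'⟩
      have hzD : z ∉ D := fun h => hCz ⟨h, hz'⟩
      have h1 : x⁻¹ * z = y := by rw [← hxyz]; group
      have h2 : SL C x = SL C z := SL_eq hC hdx hdz (hx'.trans hz'.symm) (by rw [h1, hx']; exact hy')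
      have h3 : (SL C x).Nonempty := ⟨z, hdz, hz'.trans hx'.symm, by rw [h1, hx']; exact hy'⟩
      have h4 := repL_mem h3
      have h5 := repL_congr h2
      have h6 := repL_mem (h2 ▸ h3)
      have h7 : rk C (uL C x) < a := by
        rw [uL, ← rk_inv, mul_inv_rev, inv_inv, ← hx']
        exact h4.2.2
      have h8 : rk C (uL C z) < a := by
        rw [uL, ← rk_inv, mul_inv_rev, inv_inv, ← hz']
        exact h6.2.2
      obtain ⟨n, hn⟩ := ih (max (rk C (uL C x)) (max (rk C y) (rk C (uL C z))))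
        (max_lt h7 (max_lt hy' h8)) (uL C x) y (uL C z) (by
          simp only [uL]
          rw [h5, mul_assoc, hxyz]) (le_max_left _ _)
        ((le_max_left _ _).trans (le_max_right _ _)) ((le_max_right _ _).trans (le_max_right _ _))
      exact ⟨n + 1, Or.inr (Or.inl ⟨⟨hxD, hzD⟩, h5, hn⟩)⟩
    rcases hz.lt_or_eq with hz' | hz'
    · -- `z` has small rank
      have hxD : x ∉ D := fun h => hA ⟨h, hx'⟩
      have hyD : y ∉ D := fun h => hB ⟨h, hy'⟩
      have hyi : rk C y⁻¹ = a := by rw [rk_inv, hy']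
      have h1 : y⁻¹ * x⁻¹ = z⁻¹ := by rw [← hxyz]; group
      have h1' : rk C (y⁻¹ * x⁻¹) < a := by rw [h1, rk_inv]; exact hz'
      have h2 : SR C x = SR C y⁻¹ :=
        SR_eq hC hdx (ex_inv hdy) (hx'.trans hyi.symm) (by rw [hx']; exact h1')
      have h3 : (SR C x).Nonempty := ⟨y⁻¹, ex_inv hdy, hyi.trans hx'.symm, by rw [hx']; exact h1'⟩
      have h4 := repR_mem h3
      have h5 := repR_congr h2
      have h6 := repR_mem (h2 ▸ h3)
      have h7 : rk C (uR C x) < a := by
        rw [uR, ← rk_inv, mul_inv_rev, inv_inv, ← hx']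
        exact h4.2.2
      have h8 : rk C (vR C y) < a := by
        have h9 := h6.2.2
        rw [inv_inv, hyi] at h9
        exact h9
      obtain ⟨n, hn⟩ := ih (max (rk C (uR C x)) (max (rk C (vR C y)) (rk C z)))
        (max_lt h7 (max_lt h8 hz')) (uR C x) (vR C y) z (by
          simp only [uR, vR]
          rw [h5, ← hxyz]
          group) (le_max_left _ _)
        ((le_max_left _ _).trans (le_max_right _ _)) ((le_max_right _ _).trans (le_max_right _ _))
      exact ⟨n + 1, Or.inr (Or.inr (Or.inr ⟨⟨hxD, hyD⟩, h5, hn⟩))⟩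
    · exact absurd ⟨fun h => hA ⟨h, hx'⟩, fun h => hB ⟨h, hy'⟩, fun h => hCz ⟨h, hz'⟩⟩ hout

section meas

variable [MeasurableSpace G]

/-- The multiplication graph is measurable. -/
theorem meas_graph (hC : Monotone C) (hall : ∀ x, ∃ i, x ∈ C i)
    (hinj : ∀ d ∈ D, ∀ d' ∈ D, rk C d = rk C d' → d = d')
    (hD : ∀ S : Set G, (∀ x ∈ S, x ∉ D) → MeasurableSet S) {e : G → ℕ → Bool}
    (he : Function.Injective e) (hem : Measurable e)
    (hcl : Cl {p : G × G × G | p.1 * p.2.1 = p.2.2})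
    (hsq : MeasurableSet {q : G × G | q.1 ∈ D ∧ q.2 = q.1 * q.1}) :
    MeasurableSet {p : G × G × G | p.1 * p.2.1 = p.2.2} := by
  letI : Inhabited G := ⟨1⟩
  have m1 : Measurable fun p : G × G × G => p.1 := measurable_fst
  have m2 : Measurable fun p : G × G × G => p.2.1 := measurable_fst.comp measurable_snd
  have m3 : Measurable fun p : G × G × G => p.2.2 := measurable_snd.comp measurable_snd
  have n1 : MeasurableSet {p : G × G × G | p.1 ∉ D} := m1 (meas_D hD).compl
  have n2 : MeasurableSet {p : G × G × G | p.2.1 ∉ D} := m2 (meas_D hD).compl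
  have n3 : MeasurableSet {p : G × G × G | p.2.2 ∉ D} := m3 (meas_D hD).compl
  have hK : MeasurableSet (K C D) := by
    refine (meas_K hD he hem m2 m1 m3 _ (fun y => dl C D y * y)).union ?_
    refine (meas_K hD he hem m1 m2 m3 _ (fun y => y * dl C D y)).union ?_
    refine (meas_K hD he hem m3 m2 m1 _ (fun y => y * (dl C D y)⁻¹)).union ?_
    refine (meas_K hD he hem m3 m1 m2 _ (fun y => (dl C D y)⁻¹ * y)).union ?_
    refine (meas_K hD he hem m1 m3 m2 _ (fun y => y⁻¹ * dl C D y)).union ?_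
    refine (meas_K hD he hem m2 m3 m1 _ (fun y => dl C D y * y⁻¹)).union ?_
    refine ((meas_eq he hem m1 measurable_const).inter (meas_eq he hem m2 m3)).union ?_
    refine ((meas_eq he hem m2 measurable_const).inter (meas_eq he hem m1 m3)).union ?_
    exact (meas_eq he hem m2 m1).inter ((m1.prodMk m3) hsq)
  have h0 : MeasurableSet {p : G × G × G | p.1 ∉ D ∧ p.2.1 ∉ D ∧ p.2.2 ∉ D ∧
      p.1 * p.2.1 = p.2.2} := by
    obtain ⟨A, B, A', h⟩ := hcl
    have h1 : {p : G × G × G | p.1 ∉ D ∧ p.2.1 ∉ D ∧ p.2.2 ∉ D ∧ p.1 * p.2.1 = p.2.2} =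
        ({p : G × G × G | p.1 ∉ D} ∩ ({p : G × G × G | p.2.1 ∉ D} ∩
        {p : G × G × G | p.2.2 ∉ D})) ∩ ⋂ m, ((fun p : G × G × G => p.1) ⁻¹' (A m ∩ Dᶜ) ∩
          ((fun p : G × G × G => p.2.1) ⁻¹' (B m ∩ Dᶜ) ∩
          (fun p : G × G × G => p.2.2) ⁻¹' (A' m ∩ Dᶜ)))ᶜ := by
      ext ⟨x, y, z⟩
      constructor
      · rintro ⟨h1, h2, h3, h4⟩
        refine ⟨⟨h1, h2, h3⟩, mem_iInter.2 fun m hm => ?_⟩
        exact (h x y z).1 h4 m ⟨hm.1.1, hm.2.1.1, hm.2.2.1⟩
      · rintro ⟨⟨h1, h2, h3⟩, h4⟩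
        refine ⟨h1, h2, h3, (h x y z).2 fun m hm => ?_⟩
        exact mem_iInter.1 h4 m ⟨⟨hm.1, h1⟩, ⟨hm.2.1, h2⟩, ⟨hm.2.2, h3⟩⟩
    rw [h1]
    refine (n1.inter (n2.inter n3)).inter (MeasurableSet.iInter fun m => ?_)
    exact ((m1 (hD _ fun x hx => hx.2)).inter ((m2 (hD _ fun x hx => hx.2)).inter
      (m3 (hD _ fun x hx => hx.2)))).compl
  have hT : ∀ n, MeasurableSet (TT C D n) := by
    intro n
    induction n with
    | zero => exact h0.union hK
    | succ n ih =>
      have hL : {p : G × G × G | (p.1 ∉ D ∧ p.2.2 ∉ D) ∧ repL C p.1 = repL C p.2.2 ∧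
          (uL C p.1, p.2.1, uL C p.2.2) ∈ TT C D n} = ({p : G × G × G | p.1 ∉ D} ∩
          {p : G × G × G | p.2.2 ∉ D}) ∩ ({p : G × G × G | off D (repL C) p.1 = off D (repL C) p.2.2} ∩
          (fun p : G × G × G => (off D (uL C) p.1, p.2.1, off D (uL C) p.2.2)) ⁻¹' TT C D n) := by
        ext ⟨x, y, z⟩
        constructor
        · rintro ⟨⟨h1, h2⟩, h3, h4⟩
          refine ⟨⟨h1, h2⟩, ?_, ?_⟩
          · show off D (repL C) x = off D (repL C) z
            rw [off_of h1, off_of h2]; exact h3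
          · show (off D (uL C) x, y, off D (uL C) z) ∈ TT C D n
            rw [off_of h1, off_of h2]; exact h4
        · rintro ⟨⟨h1, h2⟩, h3, h4⟩
          have h3' : off D (repL C) x = off D (repL C) z := h3
          have h4' : (off D (uL C) x, y, off D (uL C) z) ∈ TT C D n := h4
          rw [off_of h1, off_of h2] at h3' h4'
          exact ⟨⟨h1, h2⟩, h3', h4'⟩
      have hR : {p : G × G × G | (p.2.1 ∉ D ∧ p.2.2 ∉ D) ∧ repR C p.2.1 = repR C p.2.2 ∧
          (p.1, uR C p.2.1, uR C p.2.2) ∈ TT C D n} = ({p : G × G × G | p.2.1 ∉ D} ∩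
          {p : G × G × G | p.2.2 ∉ D}) ∩
          ({p : G × G × G | off D (repR C) p.2.1 = off D (repR C) p.2.2} ∩
          (fun p : G × G × G => (p.1, off D (uR C) p.2.1, off D (uR C) p.2.2)) ⁻¹' TT C D n) := by
        ext ⟨x, y, z⟩
        constructor
        · rintro ⟨⟨h1, h2⟩, h3, h4⟩
          refine ⟨⟨h1, h2⟩, ?_, ?_⟩
          · show off D (repR C) y = off D (repR C) z
            rw [off_of h1, off_of h2]; exact h3
          · show (x, off D (uR C) y, off D (uR C) z) ∈ TT C D n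
            rw [off_of h1, off_of h2]; exact h4
        · rintro ⟨⟨h1, h2⟩, h3, h4⟩
          have h3' : off D (repR C) y = off D (repR C) z := h3
          have h4' : (x, off D (uR C) y, off D (uR C) z) ∈ TT C D n := h4
          rw [off_of h1, off_of h2] at h3' h4'
          exact ⟨⟨h1, h2⟩, h3', h4'⟩
      have hV : {p : G × G × G | (p.1 ∉ D ∧ p.2.1 ∉ D) ∧ repR C p.1 = repR C p.2.1⁻¹ ∧
          (uR C p.1, vR C p.2.1, p.2.2) ∈ TT C D n} = ({p : G × G × G | p.1 ∉ D} ∩
          {p : G × G × G | p.2.1 ∉ D}) ∩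
          ({p : G × G × G | off D (repR C) p.1 = off D (fun y => repR C y⁻¹) p.2.1} ∩
          (fun p : G × G × G => (off D (uR C) p.1, off D (vR C) p.2.1, p.2.2)) ⁻¹' TT C D n) := by
        ext ⟨x, y, z⟩
        constructor
        · rintro ⟨⟨h1, h2⟩, h3, h4⟩
          refine ⟨⟨h1, h2⟩, ?_, ?_⟩
          · show off D (repR C) x = off D (fun y => repR C y⁻¹) y
            rw [off_of h1, off_of h2]; exact h3
          · show (off D (uR C) x, off D (vR C) y, z) ∈ TT C D n
            rw [off_of h1, off_of h2]; exact h4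
        · rintro ⟨⟨h1, h2⟩, h3, h4⟩
          have h3' : off D (repR C) x = off D (fun y => repR C y⁻¹) y := h3
          have h4' : (off D (uR C) x, off D (vR C) y, z) ∈ TT C D n := h4
          rw [off_of h1, off_of h2] at h3' h4'
          exact ⟨⟨h1, h2⟩, h3', h4'⟩
      refine ih.union (MeasurableSet.union ?_ (MeasurableSet.union ?_ ?_))
      · rw [hL]
        exact (n1.inter n3).inter ((meas_eq he hem ((meas_off hD _).comp m1)
          ((meas_off hD _).comp m3)).inter ((((meas_off hD (uL C)).comp m1).prodMk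
            (m2.prodMk ((meas_off hD (uL C)).comp m3))) ih))
      · rw [hR]
        exact (n2.inter n3).inter ((meas_eq he hem ((meas_off hD _).comp m2)
          ((meas_off hD _).comp m3)).inter ((m1.prodMk
            (((meas_off hD (uR C)).comp m2).prodMk ((meas_off hD (uR C)).comp m3))) ih))
      · rw [hV]
        exact (n1.inter n2).inter ((meas_eq he hem ((meas_off hD _).comp m1)
          ((meas_off hD _).comp m2)).inter ((((meas_off hD (uR C)).comp m1).prodMk
            (((meas_off hD (vR C)).comp m2).prodMk m3)) ih))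
  have h1 : {p : G × G × G | p.1 * p.2.1 = p.2.2} = ⋃ n, TT C D n := by
    ext ⟨x, y, z⟩
    rw [mem_iUnion]
    constructor
    · intro h
      exact TT_complete hC hall hinj (max (rk C x) (max (rk C y) (rk C z))) x y z h
        (le_max_left _ _) ((le_max_left _ _).trans (le_max_right _ _))
        ((le_max_right _ _).trans (le_max_right _ _))
    · rintro ⟨n, hn⟩
      exact TT_sound n _ hn
  rw [h1]
  exact MeasurableSet.iUnion hT

end meas

end Q163.AB
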