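import Pool.Agent.Q163.AB.B

/-!
# Abstractly Borelian groups: countable families and chains
-/

set_option autoImplicit false

namespace Q163.AB

open Set Cardinal MeasureTheory Q215.Gr

universe u

section fam

variable {G : Type u}

/-- The `σ`-algebra on the triples generated by the products of the sets of the Borel field of `A`. -/
def box (A : ℕ → Set G) : MeasurableSpace (G × G × G) :=
  MeasurableSpace.generateFrom {W | ∃ B₁ B₂ B₃ : Set G,
    MeasurableSet[MeasurableSpace.generateFrom (range A)] B₁ ∧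
    MeasurableSet[MeasurableSpace.generateFrom (range A)] B₂ ∧
    MeasurableSet[MeasurableSpace.generateFrom (range A)] B₃ ∧ W = B₁ ×ˢ B₂ ×ˢ B₃}

theorem box_mono {A A' : ℕ → Set G} (h : range A ⊆ range A') : box A ≤ box A' := by
  refine MeasurableSpace.generateFrom_mono ?_
  rintro W ⟨B₁, B₂, B₃, h1, h2, h3, rfl⟩
  have hle : MeasurableSpace.generateFrom (range A) ≤ MeasurableSpace.generateFrom (range A') :=
    MeasurableSpace.generateFrom_mono h
  exact ⟨B₁, B₂, B₃, hle _ h1, hle _ h2, hle _ h3, rfl⟩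

/-- The sets of triples which are Borelian with respect to some sequence of measurable sets. -/
def fam (m : MeasurableSpace G) : MeasurableSpace (G × G × G) where
  MeasurableSet' Z := ∃ A : ℕ → Set G, (∀ n, MeasurableSet[m] (A n)) ∧ MeasurableSet[box A] Z
  measurableSet_empty := ⟨fun _ => ∅, fun _ => @MeasurableSet.empty _ m,
    @MeasurableSet.empty _ (box fun _ => ∅)⟩
  measurableSet_compl := fun Z h => by
    obtain ⟨A, h1, h2⟩ := h
    exact ⟨A, h1, h2.compl⟩
  measurableSet_iUnion := fun f hf => by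
    choose A h1 h2 using hf
    refine ⟨fun n => A (Nat.unpair n).1 (Nat.unpair n).2, fun n => h1 _ _, ?_⟩
    refine MeasurableSet.iUnion fun k => ?_
    refine box_mono ?_ _ (h2 k)
    rintro _ ⟨n, rfl⟩
    exact ⟨Nat.pair k n, by simp⟩

theorem gen_self (S : Set G) : MeasurableSet[MeasurableSpace.generateFrom (range fun _ : ℕ => S)] S :=
  MeasurableSpace.measurableSet_generateFrom ⟨0, rfl⟩

theorem prod_le_fam (m : MeasurableSpace G) : m.prod (m.prod m) ≤ fam m := by
  refine sup_le ?_ (MeasurableSpace.comap_le_iff_le_map.2 (sup_le ?_ ?_))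
  · rintro _ ⟨S, hS, rfl⟩
    refine ⟨fun _ => S, fun _ => hS, MeasurableSpace.measurableSet_generateFrom
      ⟨S, univ, univ, gen_self S, MeasurableSet.univ, MeasurableSet.univ, ?_⟩⟩
    ext ⟨x, y, z⟩
    simp
  · rintro _ ⟨S, hS, rfl⟩
    refine ⟨fun _ => S, fun _ => hS, MeasurableSpace.measurableSet_generateFrom
      ⟨univ, S, univ, MeasurableSet.univ, gen_self S, MeasurableSet.univ, ?_⟩⟩
    ext ⟨x, y, z⟩
    simp
  · rintro _ ⟨S, hS, rfl⟩
    refine ⟨fun _ => S, fun _ => hS, MeasurableSpace.measurableSet_generateFrom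
      ⟨univ, univ, S, MeasurableSet.univ, MeasurableSet.univ, gen_self S, ?_⟩⟩
    ext ⟨x, y, z⟩
    simp

end fam

section chain

variable {G : Type u} [Group G]

/-- Every uncountable set `D₀` has a subset `D` of the same cardinality on which the rank with
respect to a suitable chain is injective. -/
theorem exists_chain (D₀ : Set G) (h0 : ℵ₀ < #D₀) : ∃ (ι : Type u) (_ : LinearOrder ι)
    (_ : WellFoundedLT ι) (_ : Nonempty ι) (C : ι → Subgroup G) (D : Set G), Monotone C ∧
    (∀ x, ∃ i, x ∈ C i) ∧ D ⊆ D₀ ∧ #D = #D₀ ∧ (∀ d ∈ D, ∀ d' ∈ D, rk C d = rk C d' → d = d') ∧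
    (1 : G) ∉ D := by
  let ι₀ : Type u := (#D₀).ord.ToType
  obtain ⟨f⟩ : Nonempty (ι₀ ≃ D₀) := Cardinal.eq.1 (mk_ord_toType _)
  let S : WithTop ι₀ → Set G := fun i => {g | i = ⊤ ∨ ∃ k : ι₀, (k : WithTop ι₀) ≤ i ∧ (f k : G) = g}
  let C : WithTop ι₀ → Subgroup G := fun i => Subgroup.closure (S i)
  have hC : Monotone C := by
    intro i j hij
    refine Subgroup.closure_mono ?_
    rintro g (h | ⟨k, hk, rfl⟩)
    · exact Or.inl (top_le_iff.1 (h ▸ hij))
    · exact Or.inr ⟨k, hk.trans hij, rfl⟩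
  have hall : ∀ x, ∃ i, x ∈ C i := fun x => ⟨⊤, Subgroup.subset_closure (Or.inl rfl)⟩
  let R : Set ι₀ := {k | (f k : G) ∉ Subgroup.closure ((fun l => (f l : G)) '' Iio k)}
  have hrk : ∀ k ∈ R, rk C (f k : G) = (k : WithTop ι₀) := by
    intro k hk
    refine le_antisymm (rk_le (Subgroup.subset_closure (Or.inr ⟨k, le_rfl, rfl⟩))) ?_
    by_contra hc
    rw [not_le] at hc
    refine hk ?_
    refine Subgroup.closure_mono ?_ (mem_rk (C := C) (hall (f k : G)))
    rintro g (h | ⟨l, hl, rfl⟩)
    · rw [h] at hc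
      exact absurd hc not_top_lt
    · exact ⟨l, WithTop.coe_lt_coe.1 (hl.trans_lt hc), rfl⟩
  let D : Set G := (fun k => (f k : G)) '' R
  have hgen : ∀ k, (f k : G) ∈ Subgroup.closure D := by
    intro k
    induction k using WellFoundedLT.induction with
    | _ k ih =>
      by_cases hk : k ∈ R
      · exact Subgroup.subset_closure ⟨k, hk, rfl⟩
      · have h1 : (f k : G) ∈ Subgroup.closure ((fun l => (f l : G)) '' Iio k) := by
          by_contra hc
          exact hk hc
        refine (Subgroup.closure_le _).2 ?_ h1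
        rintro _ ⟨l, hl, rfl⟩
        exact ih l hl
  have hsub : D ⊆ D₀ := by
    rintro _ ⟨k, -, rfl⟩
    exact (f k).2
  refine ⟨WithTop ι₀, inferInstance, inferInstance, inferInstance, C, D, hC, hall, hsub, ?_, ?_, ?_⟩
  · refine le_antisymm (mk_le_mk_of_subset hsub) ?_
    have h1 : D₀ ⊆ (Subgroup.closure D : Set G) := by
      intro g hg
      have h2 := hgen (f.symm ⟨g, hg⟩)
      rwa [Equiv.apply_symm_apply] at h2
    have h2 : #D₀ ≤ max #D ℵ₀ := (mk_le_mk_of_subset h1).trans (mk_closure_le D)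
    exact (le_max_iff.1 h2).resolve_right (not_le.2 h0)
  · rintro _ ⟨k, hk, rfl⟩ _ ⟨l, hl, rfl⟩ h
    rw [hrk k hk, hrk l hl] at h
    rw [WithTop.coe_injective h]
  · rintro ⟨k, hk, h⟩
    refine hk ?_
    have h' : (f k : G) = 1 := h
    rw [h']
    exact one_mem _

variable {ι : Type u} [LinearOrder ι] [WellFoundedLT ι] [Nonempty ι] (C : ι → Subgroup G)

open Classical in
/-- A colouring such that `x` and `x²` have different colours if the rank of `x²` is smaller. -/
noncomputable def col : G → Bool :=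
  (InvImage.wf (rk C) (wellFounded_lt (α := ι))).fix fun x d =>
    if h : rk C (x * x) < rk C x then !(d _ h) else true

open Classical in
theorem col_eq (x : G) : col C x = if rk C (x * x) < rk C x then !(col C (x * x)) else true := by
  rw [col, WellFounded.fix_eq]
  rfl

variable {C}

theorem exists_free {D : Set G} (hall : ∀ x, ∃ i, x ∈ C i)
    (hinj : ∀ d ∈ D, ∀ d' ∈ D, rk C d = rk C d' → d = d') (h1 : (1 : G) ∉ D) (h0 : ℵ₀ < #D) :
    ∃ D' ⊆ D, #D' = #D ∧ ∀ x ∈ D', x * x ∉ D' := by
  have hcol : ∀ x ∈ D, x * x ∈ D → col C x ≠ col C (x * x) := by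
    intro x hx hxx
    have h2 : rk C (x * x) < rk C x := by
      refine lt_of_le_of_ne (rk_le ?_) fun h => ?_
      · exact mul_mem (mem_rk (hall x)) (mem_rk (hall x))
      · have h3 := hinj _ hxx _ hx h
        have h4 : x = 1 := mul_eq_left.1 h3
        exact h1 (h4 ▸ hx)
    rw [col_eq C x, if_pos h2]
    cases col C (x * x) <;> simp
  have hfree : ∀ b : Bool, ∀ x ∈ D ∩ {x | col C x = b}, x * x ∉ D ∩ {x | col C x = b} := by
    rintro b x ⟨hx, hb⟩ ⟨hxx, hb'⟩
    exact hcol x hx hxx (hb.trans hb'.symm)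
  have hD : D = (D ∩ {x | col C x = true}) ∪ (D ∩ {x | col C x = false}) := by
    ext x
    cases h : col C x <;> simp [h]
  have hle : #D ≤ #(D ∩ {x | col C x = true} : Set G) + #(D ∩ {x | col C x = false} : Set G) := by
    conv_lhs => rw [hD]
    exact mk_union_le _ _
  by_cases ht : #(D ∩ {x | col C x = true} : Set G) = #D
  · exact ⟨_, inter_subset_left, ht, hfree true⟩
  · by_cases hf : #(D ∩ {x | col C x = false} : Set G) = #D
    · exact ⟨_, inter_subset_left, hf, hfree false⟩
    · have h2 : #(D ∩ {x | col C x = true} : Set G) < #D :=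
        lt_of_le_of_ne (mk_le_mk_of_subset inter_subset_left) ht
      have h3 : #(D ∩ {x | col C x = false} : Set G) < #D :=
        lt_of_le_of_ne (mk_le_mk_of_subset inter_subset_left) hf
      exact absurd hle (not_le.2 (add_lt_of_lt h0.le h2 h3))

end chain

end Q163.AB
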