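import Pool.Agent.Q163.AB.C

/-!
# Abstractly Borelian groups: the measure
-/

set_option autoImplicit false

namespace Q163.AB

open Set Cardinal MeasureTheory Q215.Gr

universe u v

variable {G : Type u} [Group G]

/-- The conclusion: the multiplication graph is Borelian with respect to a measurable sequence. -/
def Good (G : Type u) [Group G] : Prop :=
  ∃ A : ℕ → Set G, (∃ m : @Measure G (MeasurableSpace.generateFrom (range A)), m univ = 1 ∧
    ∀ x : G, MeasurableSet[MeasurableSpace.generateFrom (range A)] {x} → m {x} = 0) ∧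
    MeasurableSet[box A] {p : G × G × G | p.1 * p.2.1 = p.2.2}

/-- The last step, for a chain such that the rank is injective on `D`. -/
theorem good_of_chain {X : Type v} [MeasurableSpace X] (μ : Measure X) (hμ : μ univ = 1)
    (hμ0 : ∀ x, μ {x} = 0) {j : X → ℕ → Bool} (hj : Measurable j) (hji : Function.Injective j)
    (hG : #G ≤ 𝔠) {ι : Type u} [LinearOrder ι] [WellFoundedLT ι] [Nonempty ι] {C : ι → Subgroup G}
    {D : Set G} (hC : Monotone C) (hall : ∀ x, ∃ i, x ∈ C i)
    (hinj : ∀ d ∈ D, ∀ d' ∈ D, rk C d = rk C d' → d = d')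
    (hcard : Cardinal.lift.{u} #X = Cardinal.lift.{v} #D)
    (hs : (∀ x ∈ D, ∀ y ∈ D, x * x = y * y) ∨
      ((∀ x ∈ D, ∀ y ∈ D, x * x = y * y → x = y) ∧ ∀ x ∈ D, x * x ∉ D)) : Good G := by
  classical
  have h1 : Cardinal.lift.{0} #G ≤ Cardinal.lift.{u} #(ℕ → Bool) := by
    simpa using hG
  obtain ⟨e₁⟩ := Cardinal.lift_mk_le'.1 h1
  obtain ⟨φ⟩ := Cardinal.lift_mk_eq'.1 hcard
  let i : X → G := fun x => (φ x : G)
  have hi : Function.Injective i := fun x y h => φ.injective (Subtype.ext h)
  have hiD : ∀ x, i x ∈ D := fun x => (φ x).2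
  have hDi : ∀ d ∈ D, ∃ x, i x = d := fun d hd => ⟨φ.symm ⟨d, hd⟩, by simp [i]⟩
  letI mS : MeasurableSpace G := MeasurableSpace.map i inferInstance
  have hmS : ∀ S : Set G, MeasurableSet S ↔ MeasurableSet (i ⁻¹' S) := fun S => Iff.rfl
  have hmi : Measurable i := fun S hS => hS
  have hD : ∀ S : Set G, (∀ x ∈ S, x ∉ D) → MeasurableSet S := by
    intro S hS
    rw [hmS]
    have h2 : i ⁻¹' S = ∅ := by
      ext x
      exact ⟨fun hx => hS _ hx (hiD x), fun hx => hx.elim⟩
    rw [h2]
    exact MeasurableSet.empty
  -- a measurable injection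
  let e : G → ℕ → Bool := fun g n => Nat.casesOn n (decide (g ∈ D)) fun m =>
    if h : ∃ x, i x = g then j h.choose m else e₁ g m
  have he : Function.Injective e := by
    intro g g' h
    have h0 : decide (g ∈ D) = decide (g' ∈ D) := congrFun h 0
    have h1 : ∀ m, (if h : ∃ x, i x = g then j h.choose m else e₁ g m) =
        (if h : ∃ x, i x = g' then j h.choose m else e₁ g' m) := fun m => congrFun h (m + 1)
    have h2 : g ∈ D ↔ g' ∈ D := decide_eq_decide.1 h0
    by_cases hg : g ∈ D
    · have hx := hDi g hg
      have hx' := hDi g' (h2.1 hg)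
      have h3 : j hx.choose = j hx'.choose := by
        funext m
        have := h1 m
        rw [dif_pos hx, dif_pos hx'] at this
        exact this
      have h4 := hji h3
      rw [← hx.choose_spec, ← hx'.choose_spec, h4]
    · have hx : ¬ ∃ x, i x = g := fun ⟨x, hx⟩ => hg (hx ▸ hiD x)
      have hx' : ¬ ∃ x, i x = g' := fun ⟨x, hx⟩ => hg (h2.2 (hx ▸ hiD x))
      refine e₁.injective (funext fun m => ?_)
      have := h1 m
      rw [dif_neg hx, dif_neg hx'] at this
      exact this
  have hem : Measurable e := by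
    have h2 : Measurable (e ∘ i) := by
      refine measurable_pi_iff.2 fun n => ?_
      cases n with
      | zero =>
        have h3 : (fun x => (e ∘ i) x 0) = fun _ => true := by
          funext x
          show decide (i x ∈ D) = true
          exact decide_eq_true (hiD x)
        rw [h3]
        exact measurable_const
      | succ m =>
        have h3 : (fun x => (e ∘ i) x (m + 1)) = fun x => j x m := by
          funext x
          have hx : ∃ y, i y = i x := ⟨x, rfl⟩
          show (if h : ∃ y, i y = i x then j h.choose m else e₁ (i x) m) = j x m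
          rw [dif_pos hx, hi hx.choose_spec]
        rw [h3]
        exact (measurable_pi_apply m).comp hj
    intro S hS
    exact h2 hS
  -- the squares
  have hDm := meas_D hD
  have hsq : MeasurableSet {q : G × G | q.1 ∈ D ∧ q.2 = q.1 * q.1} := by
    rcases hs with hs | ⟨hs1, hs2⟩
    · rcases D.eq_empty_or_nonempty with hE | ⟨d, hd⟩
      · have h2 : {q : G × G | q.1 ∈ D ∧ q.2 = q.1 * q.1} = ∅ := by
          ext q
          rw [hE]
          exact ⟨fun h => h.1.elim, fun h => h.elim⟩
        rw [h2]
        exact MeasurableSet.empty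
      · have h2 : {q : G × G | q.1 ∈ D ∧ q.2 = q.1 * q.1} =
            Prod.fst ⁻¹' D ∩ {q : G × G | q.2 = d * d} := by
          ext q
          constructor
          · rintro ⟨h3, h4⟩
            exact ⟨h3, h4.trans (hs _ h3 _ hd)⟩
          · rintro ⟨h3, h4⟩
            have h4' : q.2 = d * d := h4
            exact ⟨h3, h4'.trans (hs _ hd _ h3)⟩
        rw [h2]
        exact (measurable_fst hDm).inter (meas_eq he hem measurable_snd measurable_const)
    · letI : Inhabited G := ⟨1⟩
      let ρ : G → G := off D fun z => if h : ∃ d ∈ D, d * d = z then h.choose else 1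
      have h2 : {q : G × G | q.1 ∈ D ∧ q.2 = q.1 * q.1} =
          Prod.snd ⁻¹' {z | z ∉ D ∧ ∃ d ∈ D, d * d = z} ∩ {q : G × G | q.1 = ρ q.2} := by
        ext ⟨x, z⟩
        constructor
        · rintro ⟨h3, h4⟩
          have h4' : z = x * x := h4
          have h5 : z ∉ D := h4' ▸ hs2 x h3
          have h6 : ∃ d ∈ D, d * d = z := ⟨x, h3, h4'.symm⟩
          refine ⟨⟨h5, h6⟩, ?_⟩
          show x = ρ z
          simp only [ρ]
          rw [off_of h5, dif_pos h6]
          exact hs1 _ h3 _ h6.choose_spec.1 (h4'.symm.trans h6.choose_spec.2.symm)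
        · rintro ⟨⟨h5, h6⟩, h7⟩
          have h7' : x = ρ z := h7
          simp only [ρ] at h7'
          rw [off_of h5, dif_pos h6] at h7'
          refine ⟨h7' ▸ h6.choose_spec.1, ?_⟩
          show z = x * x
          rw [h7']
          exact h6.choose_spec.2.symm
      rw [h2]
      exact (measurable_snd (hD _ fun z hz => hz.1)).inter
        (meas_eq he hem measurable_fst ((meas_off hD _).comp measurable_snd))
  have hgr := meas_graph hC hall hinj hD he hem (cl_group hG) hsq
  obtain ⟨A, hA, hZ⟩ := prod_le_fam mS _ hgr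
  have hle : MeasurableSpace.generateFrom (range A) ≤ mS := by
    refine MeasurableSpace.generateFrom_le ?_
    rintro _ ⟨n, rfl⟩
    exact hA n
  refine ⟨A, ⟨(Measure.map i μ).trim hle, ?_, fun x hx => ?_⟩, hZ⟩
  · rw [trim_measurableSet_eq hle MeasurableSet.univ, Measure.map_apply hmi MeasurableSet.univ,
      preimage_univ, hμ]
  · rw [trim_measurableSet_eq hle hx, Measure.map_apply hmi (hle _ hx)]
    rcases (i ⁻¹' {x}).eq_empty_or_nonempty with h2 | ⟨y, hy⟩
    · rw [h2, measure_empty]
    · have h3 : i ⁻¹' {x} = {y} := by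
        ext z
        constructor
        · intro hz
          exact hi (Eq.trans hz (Eq.symm hy))
        · intro hz
          have hz' : z = y := hz
          rw [hz']
          exact hy
      rw [h3]
      exact hμ0 y

/-- The multiplication graph of a group of cardinality at most the continuum is Borelian with
respect to a measurable sequence, if there is a set `D₀` of the cardinality of a set which carries
a diffuse probability measure such that the squaring map is constant or injective on `D₀`. -/
theorem good {X : Type v} [MeasurableSpace X] (μ : Measure X) (hμ : μ univ = 1)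
    (hμ0 : ∀ x, μ {x} = 0) {j : X → ℕ → Bool} (hj : Measurable j) (hji : Function.Injective j)
    (hG : #G ≤ 𝔠) (D₀ : Set G) (hcard : Cardinal.lift.{u} #X = Cardinal.lift.{v} #D₀)
    (h0 : ℵ₀ < #D₀)
    (hs : (∀ x ∈ D₀, ∀ y ∈ D₀, x * x = y * y) ∨ ∀ x ∈ D₀, ∀ y ∈ D₀, x * x = y * y → x = y) :
    Good G := by
  obtain ⟨ι, _, _, _, C, D, hC, hall, hsub, hD, hinj, h1⟩ := exists_chain D₀ h0
  rcases hs with hs | hs
  · exact good_of_chain μ hμ hμ0 hj hji hG hC hall hinj (hcard.trans (by rw [hD]))
      (Or.inl fun x hx y hy => hs x (hsub hx) y (hsub hy))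
  · obtain ⟨D', hsub', hD', hfree⟩ := exists_free hall hinj h1 (hD ▸ h0)
    exact good_of_chain μ hμ hμ0 hj hji hG hC hall
      (fun d hd d' hd' h => hinj d (hsub' hd) d' (hsub' hd') h) (hcard.trans (by rw [hD', hD]))
      (Or.inr ⟨fun x hx y hy h => hs x (hsub (hsub' hx)) y (hsub (hsub' hy)) h, hfree⟩)

end Q163.AB
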